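import Pool.Agent.R685.LieSup3

set_option autoImplicit false

/-!
# A solvable variety of Malcev (even Lie) algebras of index three without a finite basic superrank

Negative answer to MP_af1090_al, Q1 (for `Malc`). The library `Pool.Agent.R685.LieSup3` (by helper685, on the
definitions of `Pool.Agent.H163R3.Defs` by helper163) proves that the variety `V1` of the Lie algebras with
`((xy)z)((tu)v) = 0` is not generated by the Grassmann envelope of a finitely generated superalgebra. This
variety is solvable of index three, and it consists of Malcev algebras.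
-/

namespace Pool.Agent.Results.MP_af1090_al.SolvableMalcev

open Pool.Agent.H163R3 Pool.Agent.R685

universe u

/-- The defining identities of the Malcev algebras: `x ∘ y = xy + yx = 0` and
`J(x,y,z) x = J(x,y,xz)` with `J(x,y,z) = (xy)z + (yz)x + (zx)y`. -/
def Malc (F : Type u) [Field F] : Set (Fr F) :=
  {X F 0 * X F 1 + X F 1 * X F 0,
    ((X F 0 * X F 1) * X F 2 + (X F 1 * X F 2) * X F 0 + (X F 2 * X F 0) * X F 1) * X F 0
      - ((X F 0 * X F 1) * (X F 0 * X F 2) + (X F 1 * (X F 0 * X F 2)) * X F 0
        + ((X F 0 * X F 2) * X F 0) * X F 1)}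

/-- The word `s_k` in the variables with the indices `o, o + 1, …, o + 2 ^ k - 1`: `s_0` is a variable, and
`s_(k+1)` is the product of two copies of `s_k` in disjoint variables. -/
noncomputable def sw (F : Type u) [Field F] : ℕ → ℕ → Fr F
  | 0, o => X F o
  | k + 1, o => sw F k o * sw F k (o + 2 ^ k)

/-- The variety defined by `V` is solvable of index `n`: its algebras satisfy `s_n = 0`. -/
def SolvableOfIndex (F : Type u) [Field F] (n : ℕ) (V : Set (Fr F)) : Prop :=
  ∀ (B : Type u) [NonUnitalNonAssocRing B] [Module F B] [IsScalarTower F B B]
    [SMulCommClass F B B], InVar F V B → Sat F B (sw F n 0)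

/-- The variety defined by `V` is contained in the variety defined by `W`. -/
def Subvariety (F : Type u) [Field F] (V W : Set (Fr F)) : Prop :=
  ∀ (B : Type u) [NonUnitalNonAssocRing B] [Module F B] [IsScalarTower F B B]
    [SMulCommClass F B B], InVar F V B → InVar F W B

theorem V1_sub (F : Type u) [Field F] : Subvariety F (V1 F) (Malc F) := by
  intro B _ _ _ _ h
  have hsq : ∀ x : B, x * x = 0 := by
    intro x
    have := h _ (show X F 0 * X F 0 ∈ V1 F by unfold V1; simp)
      (FreeNonUnitalNonAssocAlgebra.lift F fun _ => x)
    simpa [X] using this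
  have hac : ∀ x y : B, x * y + y * x = 0 := by
    intro x y
    have h1 := hsq (x + y)
    rw [add_mul, mul_add, mul_add, hsq, hsq, zero_add, add_zero] at h1
    exact h1
  have hj : ∀ x y z : B, (x * y) * z + (y * z) * x + (z * x) * y = 0 := by
    intro x y z
    have := h _ (show (X F 0 * X F 1) * X F 2 + (X F 1 * X F 2) * X F 0
      + (X F 2 * X F 0) * X F 1 ∈ V1 F by unfold V1; simp)
      (FreeNonUnitalNonAssocAlgebra.lift F fun i => if i = 0 then x else if i = 1 then y else z)
    simpa [X] using this
  intro f hf φ
  rcases hf with hf | hf
  · rw [hf, map_add, map_mul, map_mul]; exact hac _ _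
  · rw [Set.mem_singleton_iff] at hf
    rw [hf]
    simp only [map_sub, map_add, map_mul]
    rw [hj, hj, zero_mul, sub_zero]

theorem V1_solv (F : Type u) [Field F] : SolvableOfIndex F 3 (V1 F) := by
  intro B _ _ _ _ h φ
  have h3 : ∀ x y z t w v : B, ((x * y) * z) * ((t * w) * v) = 0 := by
    intro x y z t w v
    have := h _ (show ((X F 0 * X F 1) * X F 2) * ((X F 3 * X F 4) * X F 5) ∈ V1 F by
      unfold V1; simp)
      (FreeNonUnitalNonAssocAlgebra.lift F fun i => if i = 0 then x else if i = 1 then y
        else if i = 2 then z else if i = 3 then t else if i = 4 then w else v)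
    simpa [X] using this
  simp only [sw, map_mul]
  exact h3 _ _ _ _ _ _

/-- Over every field `F` of characteristic zero there is a variety (given by a set `V` of identities) which is
contained in the variety of Malcev algebras, is solvable of index three, and is not generated by the Grassmann
envelope of any finitely generated superalgebra (for every Grassmann algebra `G` on countably many
generators `e`, with unit for `m = 0` and without unit for `m = 1`); and the Grassmann algebra exists. -/
theorem result (F : Type u) [Field F] [CharZero F] :
    (∃ (G : Type u) (_ : Ring G) (_ : Algebra F G) (e : ℕ → G), IsGrassmann F e) ∧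
    ∃ V : Set (Fr F), Subvariety F V (Malc F) ∧ SolvableOfIndex F 3 V ∧
      ∀ (G : Type u) [Ring G] [Algebra F G] (e : ℕ → G), IsGrassmann F e →
        ∀ m : ℕ, ¬ FinSuperrank F e m V :=
  ⟨exists_grassmann F, V1 F, V1_sub F, V1_solv F,
    fun _ _ _ _ he m => not_finSuperrank he m⟩

end Pool.Agent.Results.MP_af1090_al.SolvableMalcev
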